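import Pool.Agent.TH924.PC.Eig
import Pool.Agent.TH924.PC.Dev

set_option autoImplicit false

/-!
# Accessory parameters with few bad primes are sparse, for arbitrary differential operators

Let `L_q = L_0 + q L_1 + ⋯ + q^(d-1) L_(d-1) + q^d r(x)`, where the `L_k` are arbitrary
differential operators of order at most `n` with coefficients in `ℤ[x]` and `r` is a polynomial;
for `d = 1` this is `L_q = L_0 + q r(x)`, an operator `L_0` with an accessory parameter `q`.
Let `d < n`.  We count the integers `q` for which the reductions of `L_q` have a full basis of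
rational solutions for unusually many primes.

* Modulo a prime `p` at most `d p / n` classes `q` give a full basis (`n` solutions): the solutions
  are eigenvectors, with eigenvalue `q`, of a map of a vector space of dimension `d p` over the
  field of constants `F_p(x^p)`.
* A larger sieve (Gallagher) with test functions turns this into a bound for the number of the
  integers `q` whose primes without a full basis have a small logarithmic density.
-/

namespace Pool.Agent.Results.MP_aa40d3_nt.AccessoryParameterSieve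

open Polynomial Finset

/-- `p` is a prime and the reduction modulo `p` of `∑ b i ∂^i` has a full basis of rational
solutions: `n` solutions in `F_p(x)` that are linearly independent over the constants. This is the
condition on `p` in the problem. -/
def Full (n : ℕ) (b : Fin (n + 1) → ℤ[X]) (p : ℕ) : Prop :=
  ∃ _ : Fact p.Prime, ∃ D : Derivation ℤ (RatFunc (ZMod p)) (RatFunc (ZMod p)),
    D (RatFunc.X : RatFunc (ZMod p)) = 1 ∧
    ∃ y : Fin n → RatFunc (ZMod p),
      (∀ j : Fin n, ∑ i : Fin (n + 1),
          Polynomial.aeval (RatFunc.X : RatFunc (ZMod p)) (b i) * (⇑D)^[(i : ℕ)] (y j) = 0) ∧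
      ∀ c : Fin n → RatFunc (ZMod p), (∀ j, D (c j) = 0) →
        ∑ j : Fin n, c j * y j = 0 → ∀ j, c j = 0

/-- The coefficients of `L_q = ∑_{k < d} q^k L_k + q^d r`, where `L_k = ∑ b k i ∂^i`. -/
noncomputable def family {n d : ℕ} (b : Fin d → Fin (n + 1) → ℤ[X]) (r : ℤ[X]) (q : ℤ) :
    Fin (n + 1) → ℤ[X] :=
  fun i => (∑ k : Fin d, C (q ^ (k : ℕ)) * b k i) + if i = 0 then C (q ^ d) * r else 0

open Classical in
/-- The sum of `log p / p` over the primes `p ≤ Y` for which the reduction of `∑ b i ∂^i` does not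
have a full basis of rational solutions. -/
noncomputable def badSum (n : ℕ) (b : Fin (n + 1) → ℤ[X]) (Y : ℝ) : ℝ :=
  ∑ p ∈ Icc 1 ⌊Y⌋₊ with p.Prime ∧ ¬ Full n b p, Real.log p / p

/-- Let `1 ≤ d < n`, `α = d / n < β ≤ 1`, `K` a real number and
`θ (1 + (β - α)² / (α (1 - α))) > 1` (for `β = 1` this says `θ > d / n`; for every `β > α` there are
such `θ < 1`).  Then there is a constant `C` such that for all operators `L_0, …, L_(d-1)` of order
at most `n` over `ℤ[x]`, all polynomials `r` that are not divisible by any prime `p > N₀`, and all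
`X ≥ 2`, at most `C X^θ` integers `q` with `|q| ≤ X` satisfy
`∑ log p / p ≤ (1 - β) θ log X + K`, where the sum is over the primes `p ≤ X^θ` for which
the reduction modulo `p` of `L_q = L_0 + q L_1 + ⋯ + q^(d-1) L_(d-1) + q^d r` does not have a
full basis of rational solutions. -/
theorem result (n d : ℕ) (hd : 1 ≤ d) (hdn : d < n) (β θ K : ℝ) (hβ : (d : ℝ) / n < β)
    (hβ1 : β ≤ 1) (hθ : 1 < θ * (1 + (β - d / n) ^ 2 / ((d / n) * (1 - d / n)))) (N₀ : ℕ) :
    ∃ C : ℝ, ∀ (b : Fin d → Fin (n + 1) → ℤ[X]) (r : ℤ[X]),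
      (∀ p : ℕ, p.Prime → N₀ < p → ∃ i : ℕ, ¬ (p : ℤ) ∣ r.coeff i) →
      ∀ X : ℝ, 2 ≤ X →
        (Set.ncard {q : ℤ | |(q : ℝ)| ≤ X ∧
          badSum n (family b r q) (X ^ θ) ≤ (1 - β) * θ * Real.log X + K} : ℝ) ≤ C * X ^ θ := by
  obtain ⟨C, hC⟩ := Pool.Agent.TH924.PC.deviate (P₁ := N₀) hd hdn K hβ hβ1 hθ
  refine ⟨C, fun b r hr X hX => ?_⟩
  refine hC (fun p q => Full n (family b r q) p) ?_ X hX
  intro p hp hpN T hT
  have hpF : Fact p.Prime := ⟨hp⟩
  refine Pool.Agent.TH924.PC.classes_le hd b r ?_ T ?_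
  · obtain ⟨i, hi⟩ := hr p hp hpN
    intro h0
    apply hi
    have h1 := congrArg (fun P => P.coeff i) h0
    simp only [coeff_map, eq_intCast, coeff_zero] at h1
    exact (ZMod.intCast_zmod_eq_zero_iff_dvd _ _).1 h1
  · intro t ht
    obtain ⟨q, hq, hF⟩ := hT t ht
    obtain ⟨_, hF'⟩ := hF
    exact ⟨q, hq, hF'⟩

end Pool.Agent.Results.MP_aa40d3_nt.AccessoryParameterSieve
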