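import Pool.Agent.TH829.PC.Aff2
import Pool.Agent.W432.WB.Prime

set_option autoImplicit false

open Polynomial Pool.Agent.W432.WB

namespace Pool.Agent.Results.MP_aa40d3_nt.OrderFourAndSixPrimeDenominators

/-- The indices `l < n` are divided into `k` consecutive blocks of `n / k` indices; the sum of the
squares of the numbers of elements of `S` in the blocks. -/
def sq (k n : ℕ) (S : Finset (Fin n)) : ℕ :=
  ∑ j ∈ Finset.range k, (S.filter fun l : Fin n => (l : ℕ) / (n / k) = j).card ^ 2

/-- Fuchsian operators of order `n` with three singular points `P 0`, `P 1`, `P 2` with non-integral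
exponents, one of them at infinity, and any number of further singular points with integral
exponents, arbitrary accessory parameters; at `P i` the exponents fall into `k i` classes modulo `ℤ`
of `n / k i` elements each, where `1 / k 0 + 1 / k 1 + 1 / k 2 = 1` and `n = k 0 ≥ k 1 ≥ k 2`, not
all equal. (So `n = 4` or `n = 6`, and the index of rigidity is zero.)

`L = ∑ b t ∂ ^ t`, `t ≤ n`, with `b t` in `ℤ[x]`, `b t / b n = Q t / T ^ (n - t)`,
`T = ∏ (x - α j)` over `ℂ`, `deg Q t ≤ (n - t)(m - 1)`. The singular points are the finite points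
`some j`, that is `α j`, and the point `none` at infinity; the local exponents at the point `x` are
`E x l / N`, `l < n`. The exponents at the points other than the `P i` are integers. The numbers
`E (P i) l` are congruent modulo `N` for `l` in the same block; in general their differences are
prime to `N` or divisible by `N`. No resonance: if `S i` is a set of `r` indices for each `i` and the
sum over `i` of the sums of the squares of the numbers of elements of `S i` in the blocks is `r ^ 2 + 2`
(this is the condition on a rigid subobject of rank `r`), then the sum of the `E (P i) l`, `l ∈ S i`,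
`i < 3`, is prime to `N`. (If `N` is a prime number, being prime to `N` just means that the corresponding
difference or sum of exponents is not an integer.)

Then there is a residue class modulo `N` such that for every large prime `p` in the class the
reduction of `L` modulo `p` does not have a full basis of rational solutions. There are infinitely
many such primes, so the open implication of Grothendieck's conjecture holds for `L`. -/
theorem result : ∀ (m n : ℕ) (b : Fin (n + 1) → ℤ[X]) (α : Fin m → ℂ) (Q : Fin (n + 1) → ℂ[X])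
    (N : ℕ) (E : Option (Fin m) → Fin n → ℤ) (P : Fin 3 → Option (Fin m)) (k : Fin 3 → ℕ),
    b (Fin.last n) ≠ 0 → IsFuchs b α Q →
    HasExps α Q (fun j l => (E (some j) l : ℚ) / N) (fun l => -(E none l : ℚ) / N) →
    1 < N → Function.Injective P → (∃ i, P i = none) →
    (∀ x, x ∉ Set.range P → ∀ l, (N : ℤ) ∣ E x l) →
    n = k 0 → k 1 ≤ k 0 → k 2 ≤ k 1 → 0 < k 2 → k 2 ≠ k 0 →
    (1 : ℚ) / k 0 + 1 / k 1 + 1 / k 2 = 1 →
    (∀ i (l l' : Fin n), (l : ℕ) / (n / k i) = (l' : ℕ) / (n / k i) →
      (N : ℤ) ∣ E (P i) l - E (P i) l') →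
    (∀ i l l', IsCoprime (E (P i) l - E (P i) l') (N : ℤ) ∨ (N : ℤ) ∣ E (P i) l - E (P i) l') →
    (∀ (r : ℕ) (S : Fin 3 → Finset (Fin n)), (∀ i, (S i).card = r) →
      ∑ i, sq (k i) n (S i) = r ^ 2 + 2 → IsCoprime (∑ i, ∑ l ∈ S i, E (P i) l) (N : ℤ)) →
    (∃ a : ℤ, IsCoprime a (N : ℤ) ∧
      (∃ P₀ : ℕ, ∀ p : ℕ, P₀ < p → (N : ℤ) ∣ a * p + 1 → ∀ _hp : Fact p.Prime, ¬ FullMod b p) ∧
      (∀ K : ℕ, ∃ p : ℕ, K < p ∧ p.Prime ∧ (N : ℤ) ∣ a * p + 1)) ∧
    ((∃ K : ℕ, ∀ p : ℕ, K < p → ∀ _hp : Fact p.Prime, FullMod b p) → FullAlg b) := by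
  intro m n b α Q N E P k hb hF hE hN hP hinf hint hn h01 h12 h0 hne hk hbl h1 h2
  have hnz : NeZero n := ⟨by omega⟩
  have hbad : ∃ a : ℤ, IsCoprime a (N : ℤ) ∧ ∃ P₀ : ℕ, ∀ p : ℕ, P₀ < p → (N : ℤ) ∣ a * p + 1 →
      ∀ _hp : Fact p.Prime, ¬ FullMod b p := by
    by_contra hno
    exact Pool.Agent.TH829.PC.arithU h0 h12 h01 hne hk hn N hN (fun i => E (P i)) hbl h1 h2
      (Pool.Agent.TH829.PC.good_pts b hb α Q hF N hN E hE P hP hinf hint hno)
  obtain ⟨a, ha, hbad⟩ := hbad
  have hpr := exists_prime_class (show 0 < N by omega) ha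
  refine ⟨⟨a, ha, hbad, hpr⟩, ?_⟩
  rintro ⟨K, hK⟩
  obtain ⟨P₀, hP₀⟩ := hbad
  obtain ⟨p, hp1, hp2, hp3⟩ := hpr (max P₀ K)
  have hp : Fact p.Prime := ⟨hp2⟩
  exact absurd (hK p (lt_of_le_of_lt (le_max_right _ _) hp1) hp)
    (hP₀ p (lt_of_le_of_lt (le_max_left _ _) hp1) hp3 hp)

end Pool.Agent.Results.MP_aa40d3_nt.OrderFourAndSixPrimeDenominators
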