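import Mathlib
import Pool.Agent.W280.PC.HeunFinal
import Pool.Agent.TH295.PC.HeunR

set_option autoImplicit false

namespace Pool.Agent.Results.MP_aa40d3_nt.RoughDenominators

open Polynomial H921PC

/-- The denominator of the rational number `x` is at least `M` or has no prime factor
below `29` (for example `x` is an integer). -/
def Adm (M : ℕ) (x : ℚ) : Prop := M ≤ x.den ∨ ∀ p : ℕ, p.Prime → p ∣ x.den → 29 ≤ p

lemma den_eq {D : ℕ} (hD : 0 < D) (z : ℤ) : ((z : ℚ) / (D : ℚ)).den = D / Int.gcd z D := by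
  have h1 : ((z : ℚ) / (D : ℚ)) = Rat.divInt z (D : ℤ) := by
    rw [Rat.divInt_eq_div]; push_cast; rfl
  rw [h1, Rat.den_divInt, if_neg (by exact_mod_cast hD.ne')]
  simp [Int.gcd, Nat.gcd_comm]

lemma adm {D M : ℕ} (hD : 0 < D) {z : ℤ} (h : Adm M ((z : ℚ) / D)) :
    Pool.Agent.TH295.PC.Adm 29 M (D / Int.gcd z D) := by
  unfold Adm at h
  rw [den_eq hD] at h
  exact h

/-- Second order Fuchsian operators over `ℚ` with rational local exponents, of which at most four
singular points (three finite ones and infinity) have non-integral exponent data, any number of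
further singular points with integral exponents, and arbitrary accessory parameters.
The operator
`L = D A ∂² + (∑ᵢ (D - rᵢ) qᵢ' ∏_{j ≠ i} qⱼ) ∂ + R`, `A = ∏ qᵢ` separable, has local exponents
`0, rᵢ / D` at the roots of `qᵢ` and `a / D, b / D` at infinity. Assume that the exponent
differences `rᵢ / D`, `(a - b) / D` have denominators that are at least `450` or without prime
factors below `29`, that the sums `(a + ∑ eᵢ rᵢ) / D` with `0 ≤ eᵢ ≤ deg qᵢ` have
denominators that are at least `40000` or without prime factors below `29`, and that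
no resonance occurs: none of the sums is an integer.

Then there is a residue class modulo `D` such that for every large prime `p` in the class the
reduction of `L` modulo `p` does not have a full basis of rational solutions. There are
infinitely many such primes, so the open implication of Grothendieck's conjecture holds for `L`. -/
theorem result : ∀ (k D : ℕ) (q : Fin k → ℤ[X]) (r : Fin k → ℤ) (a b : ℤ) (R : ℤ[X]),
    1 < D →
    ((∏ i, q i).map (Int.castRingHom ℚ)).Separable →
    2 ≤ (∏ i, q i).natDegree →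
    (∀ i, (D : ℤ) ∣ r i → 0 < r i) →
    a + b + ∑ i, r i * (q i).natDegree = D * ((∏ i, q i).natDegree - 1) →
    R.natDegree ≤ (∏ i, q i).natDegree - 2 →
    (D : ℤ) * R.coeff ((∏ i, q i).natDegree - 2) = a * b * (∏ i, q i).leadingCoeff →
    ∑ i, (if (D : ℤ) ∣ r i then 0 else (q i).natDegree) ≤ 3 →
    (∀ i, Adm 450 ((r i : ℚ) / D)) →
    Adm 450 (((a - b : ℤ) : ℚ) / D) →
    (∀ e : Fin k → ℕ, (∀ i, e i ≤ (q i).natDegree) →
      ¬ (D : ℤ) ∣ a + ∑ i, (e i : ℤ) * r i ∧
        Adm 40000 (((a + ∑ i, (e i : ℤ) * r i : ℤ) : ℚ) / D)) →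
    (∃ c : ℤ, IsCoprime c (D : ℤ) ∧
      (∃ N : ℕ, ∀ p : ℕ, N < p → ∀ _hp : Fact p.Prime, (D : ℤ) ∣ p * c - 1 →
        ¬ FullModP (Lop D q r R) p) ∧
      (∀ N : ℕ, ∃ p : ℕ, N < p ∧ p.Prime ∧ (D : ℤ) ∣ p * c - 1)) ∧
    ((∃ N : ℕ, ∀ p : ℕ, N < p → ∀ _hp : Fact p.Prime, FullModP (Lop D q r R) p) →
      FullAlgebraic (Lop D q r R)) := by
  intro k D q r a b R hD hsep hn hr hab hR hR' h3 hri habD hres
  have hD0 : 0 < D := by omega
  obtain ⟨c, hc, h1⟩ := Pool.Agent.TH295.PC.heunA q r a b R hD hsep hn hr hab hR hR' h3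
    (fun e he => ⟨(hres e he).1, adm hD0 (hres e he).2⟩) (fun i => adm hD0 (hri i)) (adm hD0 habD)
  have h2 := exists_primes hD0 hc
  refine ⟨⟨c, hc, h1, h2⟩, ?_⟩
  rintro ⟨N, hN⟩
  obtain ⟨M, hM⟩ := h1
  obtain ⟨p, hp1, hp2, hp3⟩ := h2 (max N M)
  have hp : Fact p.Prime := ⟨hp2⟩
  exact absurd (hN p (lt_of_le_of_lt (le_max_left _ _) hp1) hp)
    (hM p (lt_of_le_of_lt (le_max_right _ _) hp1) hp hp3)

end Pool.Agent.Results.MP_aa40d3_nt.RoughDenominators
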