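import Pool.Agent.TH829.PC.Third

set_option autoImplicit false

open Polynomial Pool.Agent.W432.WB

namespace Pool.Agent.Results.MP_aa40d3_nt.ThirdOrderPrimeDenominators

/-- Third order Fuchsian operators over `ℚ` with rational local exponents, of which at most three
singular points have non-integral exponents, any number of further singular points with integral
exponents, and arbitrary accessory parameters.

`L = ∑ b k ∂ ^ k`, `k ≤ 3`, with `b k` in `ℤ[x]`, `b k / b 3 = Q k / T ^ (3 - k)`,
`T = ∏ (x - α j)` over `ℂ`, `deg Q k ≤ (3 - k)(m - 1)`. The singular points are the finite points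
`some j`, that is `α j`, and the point `none` at infinity; the local exponents at the point `x` are
`E x l / N`, `l < 3`. There are three points `P 0`, `P 1`, `P 2` (one of them may be the point at
infinity) such that the exponents at all the other points are integers. Assume that the differences
`E (P i) l - E (P i) l'` are prime to `N` or divisible by `N`, and that no resonance occurs:
`E (P 0) l + E (P 1) l' + E (P 2) l''` is prime to `N` for all `l`, `l'`, `l''`. (If `N` is a prime
number this just says that no sum of three exponents, one at each of the points `P i`, is an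
integer.)

Then there is a residue class modulo `N` such that for every large prime `p` in the class the
reduction of `L` modulo `p` does not have a full basis of rational solutions. There are infinitely
many such primes, so the open implication of Grothendieck's conjecture holds for `L`. -/
theorem result : ∀ (m : ℕ) (b : Fin (3 + 1) → ℤ[X]) (α : Fin m → ℂ) (Q : Fin (3 + 1) → ℂ[X])
    (N : ℕ) (E : Option (Fin m) → Fin 3 → ℤ) (P : Fin 3 → Option (Fin m)),
    b (Fin.last 3) ≠ 0 → IsFuchs b α Q →
    HasExps α Q (fun j l => (E (some j) l : ℚ) / N) (fun l => -(E none l : ℚ) / N) →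
    1 < N → Function.Injective P →
    (∀ x, x ∉ Set.range P → ∀ l, (N : ℤ) ∣ E x l) →
    (∀ i l l', IsCoprime (E (P i) l - E (P i) l') (N : ℤ) ∨ (N : ℤ) ∣ E (P i) l - E (P i) l') →
    (∀ l l' l'', IsCoprime (E (P 0) l + E (P 1) l' + E (P 2) l'') (N : ℤ)) →
    (∃ a : ℤ, IsCoprime a (N : ℤ) ∧
      (∃ P₀ : ℕ, ∀ p : ℕ, P₀ < p → (N : ℤ) ∣ a * p + 1 → ∀ _hp : Fact p.Prime, ¬ FullMod b p) ∧
      (∀ K : ℕ, ∃ p : ℕ, K < p ∧ p.Prime ∧ (N : ℤ) ∣ a * p + 1)) ∧
    ((∃ K : ℕ, ∀ p : ℕ, K < p → ∀ _hp : Fact p.Prime, FullMod b p) → FullAlg b) := by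
  intro m b α Q N E P hb hF hE hN hP hint h1 h2
  have hm : 0 < m := by
    rcases Nat.eq_zero_or_pos m with h | h
    · subst h
      have h3 := Fintype.card_le_of_injective P hP
      simp at h3
    · exact h
  obtain ⟨a, ha, hbad⟩ := Pool.Agent.TH829.PC.third hm b hb α Q hF N hN E hE ⟨P, hP⟩ hint h1
    (fun κ => by rw [Fin.sum_univ_three]; exact h2 _ _ _)
  have hpr := exists_prime_class (show 0 < N by omega) ha
  refine ⟨⟨a, ha, hbad, hpr⟩, ?_⟩
  rintro ⟨K, hK⟩
  obtain ⟨P₀, hP₀⟩ := hbad
  obtain ⟨p, hp1, hp2, hp3⟩ := hpr (max P₀ K)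
  have hp : Fact p.Prime := ⟨hp2⟩
  exact absurd (hK p (lt_of_le_of_lt (le_max_right _ _) hp1) hp)
    (hP₀ p (lt_of_le_of_lt (le_max_left _ _) hp1) hp3 hp)

end Pool.Agent.Results.MP_aa40d3_nt.ThirdOrderPrimeDenominators
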